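import Pool.Agent.Q218.HB.Stm4

/-! Project HB2 (helper218), jobs RNK and RSA: ranks, Hilbert-Schmidt norms and resolvents. -/

set_option autoImplicit false
set_option linter.unusedSectionVars false
set_option linter.unusedVariables false

open Matrix Pool.Agent.Q218.HB
open scoped ComplexOrder

namespace Pool.Agent.Q190.HB2

/-- the quadratic form of `Xᴴ X` -/
theorem quad {Λ : Type} [Fintype Λ] [DecidableEq Λ] (X : Matrix Λ Λ ℂ) (v : Λ → ℂ) :
    star v ⬝ᵥ ((Xᴴ * X) *ᵥ v) = ((∑ x, ‖∑ y, X x y * v y‖ ^ 2 : ℝ) : ℂ) := by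
  rw [← mulVec_mulVec, dotProduct_mulVec, ← star_mulVec]
  show ∑ x, star ((X *ᵥ v) x) * (X *ᵥ v) x = _
  push_cast
  refine Finset.sum_congr rfl fun x _ => ?_
  exact Complex.conj_mul' _

/-- isometries -/
theorem iso {Λ : Type} [Fintype Λ] [DecidableEq Λ] (X : Matrix Λ Λ ℂ) (h : Xᴴ * X = 1)
    (v : Λ → ℂ) : ∑ x, ‖∑ y, X x y * v y‖ ^ 2 = ∑ x, ‖v x‖ ^ 2 := by
  have h1 := quad X v
  rw [h, one_mulVec] at h1
  have h2 : star v ⬝ᵥ v = ((∑ x, ‖v x‖ ^ 2 : ℝ) : ℂ) := by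
    show ∑ x, star (v x) * v x = _
    push_cast
    refine Finset.sum_congr rfl fun x _ => ?_
    exact Complex.conj_mul' _
  rw [h2] at h1
  exact (Complex.ofReal_injective h1).symm

/-- JOB RNK -/
theorem rnk : S_RNK := by
  intro Λ _ _ X K hK h
  have hA : (Xᴴ * X).IsHermitian := isHermitian_conjTranspose_mul_self X
  have e0 : ∀ i, hA.eigenvalues i = ∑ x, ‖∑ y, X x y * (hA.eigenvectorBasis i) y‖ ^ 2 := by
    intro i
    rw [hA.eigenvalues_eq, quad]
    exact Complex.ofReal_re _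
  have e1 : ∀ i, hA.eigenvalues i ≤ K ^ 2 := by
    intro i
    rw [e0]
    refine (h _).trans ?_
    have h3 := hA.eigenvectorBasis.orthonormal.1 i
    have h4 := EuclideanSpace.norm_sq_eq (hA.eigenvectorBasis i)
    rw [h3] at h4
    rw [← h4, one_pow, mul_one]
  have e2 : ∑ x, ∑ y, ‖X x y‖ ^ 2 = ∑ i, hA.eigenvalues i := by
    have h5 := hA.trace_eq_sum_eigenvalues
    have h6 : (Xᴴ * X).trace = ((∑ x, ∑ y, ‖X x y‖ ^ 2 : ℝ) : ℂ) := by
      rw [Finset.sum_comm]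
      simp only [Matrix.trace, Matrix.diag, Matrix.mul_apply, conjTranspose_apply]
      push_cast
      refine Finset.sum_congr rfl fun y _ => Finset.sum_congr rfl fun x _ => ?_
      exact Complex.conj_mul' _
    rw [h6] at h5
    apply Complex.ofReal_injective
    rw [h5, Complex.ofReal_sum]
    rfl
  rw [e2]
  have e3 : X.rank = Fintype.card {i // hA.eigenvalues i ≠ 0} := by
    rw [← hA.rank_eq_card_non_zero_eigs, rank_conjTranspose_mul_self]
  rw [e3, Fintype.card_subtype]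
  calc ∑ i, hA.eigenvalues i
      = ∑ i ∈ Finset.univ.filter (fun i => hA.eigenvalues i ≠ 0), hA.eigenvalues i :=
        (Finset.sum_filter_ne_zero _).symm
    _ ≤ ∑ i ∈ Finset.univ.filter (fun i => hA.eigenvalues i ≠ 0), K ^ 2 :=
        Finset.sum_le_sum fun i _ => e1 i
    _ = _ := by rw [Finset.sum_const, nsmul_eq_mul]

/-- JOB RSA -/
theorem rsa : S_RSA := by
  intro hR hI hO Λ _ _ h V A φ e hs hON hA E η hη
  have hz : (pt E η).im = η := by simp [pt]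
  generalize pt E η = z at hz
  obtain ⟨i1, i2, -⟩ := hI Λ h V z hs (by rw [hz]; exact hη.ne')
  obtain ⟨U, hU⟩ : ∃ U : Matrix Λ Λ ℂ, U = fun x j => φ j x := ⟨_, rfl⟩
  have hUa : ∀ x j, U x j = φ j x := fun x j => by rw [hU]
  have u1 : Uᴴ * U = 1 := by
    ext j k
    rw [mul_apply, one_apply, ← hON j k]
    refine Finset.sum_congr rfl fun x _ => ?_
    rw [conjTranspose_apply, hUa, hUa]
    rfl
  have u2 : U * Uᴴ = 1 := mul_eq_one_comm.1 u1
  have hgi : ∀ j, ((e j : ℂ) - z).im = -η := by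
    intro j
    rw [Complex.sub_im, Complex.ofReal_im, hz, zero_sub]
  have hg : ∀ j, (e j : ℂ) - z ≠ 0 := by
    intro j h0
    have h3 := hgi j
    rw [h0, Complex.zero_im] at h3
    linarith
  have g1 : GA φ e z = U * diagonal (fun j => ((e j : ℂ) - z)⁻¹) * Uᴴ := by
    ext x y
    rw [mul_apply]
    show ∑ j, _ = _
    refine Finset.sum_congr rfl fun j _ => ?_
    rw [mul_diagonal, conjTranspose_apply, hUa, hUa, mul_comm (φ j x)]
    rfl
  have g2 : A * U = U * diagonal (fun j => (e j : ℂ)) := by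
    ext x j
    rw [mul_apply, mul_diagonal, hUa, mul_comm (φ j x), ← hA j x]
    refine Finset.sum_congr rfl fun y _ => ?_
    rw [hUa]
  have g3 : (A - z • (1 : Matrix Λ Λ ℂ)) * GA φ e z = 1 := by
    have h3 : (A - z • (1 : Matrix Λ Λ ℂ)) * U = U * diagonal (fun j => (e j : ℂ) - z) := by
      rw [sub_mul, g2, smul_mul_assoc, one_mul]
      ext x j
      rw [Matrix.sub_apply, mul_diagonal, mul_diagonal, Matrix.smul_apply, smul_eq_mul]
      ring
    have h4 : diagonal (fun j => (e j : ℂ) - z) * diagonal (fun j => ((e j : ℂ) - z)⁻¹) =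
        (1 : Matrix Λ Λ ℂ) := by
      rw [diagonal_mul_diagonal, ← diagonal_one]
      congr 1
      funext j
      exact mul_inv_cancel₀ (hg j)
    rw [g1, ← mul_assoc, ← mul_assoc, h3, mul_assoc U, h4, mul_one, u2]
  have g4 : GA φ e z * (A - z • (1 : Matrix Λ Λ ℂ)) = 1 := mul_eq_one_comm.1 g3
  have g5 : GA φ e z - G h V z = GA φ e z * ((A - Hm h V) * (-G h V z)) := by
    have h3 : A - Hm h V = (A - z • (1 : Matrix Λ Λ ℂ)) - (Hm h V - z • (1 : Matrix Λ Λ ℂ)) := by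
      abel
    rw [h3, sub_mul, mul_neg, mul_neg, i1, sub_neg_eq_add, mul_add, mul_one, mul_neg, ← mul_assoc,
      g4, one_mul]
    abel
  have g6 : (GA φ e z - G h V z).rank ≤ (A - Hm h V).rank := by
    rw [g5]
    exact (rank_mul_le_right _ _).trans (rank_mul_le_left _ _)
  -- norms
  have n1 : ∀ f : Λ → ℂ, ∑ x, ‖∑ y, GA φ e z x y * f y‖ ^ 2 ≤ (∑ y, ‖f y‖ ^ 2) / η ^ 2 := by
    intro f
    have h3 : ∀ x, ∑ y, GA φ e z x y * f y =
        ∑ j, U x j * (((e j : ℂ) - z)⁻¹ * ∑ y, Uᴴ j y * f y) := by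
      intro x
      have h4 : GA φ e z *ᵥ f = U *ᵥ ((diagonal fun j => ((e j : ℂ) - z)⁻¹) *ᵥ (Uᴴ *ᵥ f)) := by
        rw [g1, ← mulVec_mulVec, ← mulVec_mulVec]
      have h5 := congrFun h4 x
      rw [show (GA φ e z *ᵥ f) x = ∑ y, GA φ e z x y * f y from rfl] at h5
      rw [h5]
      show ∑ j, U x j * ((diagonal fun j => ((e j : ℂ) - z)⁻¹) *ᵥ (Uᴴ *ᵥ f)) j = _
      refine Finset.sum_congr rfl fun j _ => ?_
      rw [mulVec_diagonal]
      rfl
    simp only [h3]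
    rw [iso U u1, ← iso Uᴴ (by rw [conjTranspose_conjTranspose]; exact u2) f, Finset.sum_div]
    refine Finset.sum_le_sum fun j _ => ?_
    rw [norm_mul, mul_pow, norm_inv, inv_pow, inv_mul_eq_div]
    have h6 : η ≤ ‖(e j : ℂ) - z‖ := by
      have h7 := Complex.abs_im_le_norm ((e j : ℂ) - z)
      rw [hgi, abs_neg, abs_of_pos hη] at h7
      exact h7
    have h8 : η ^ 2 ≤ ‖(e j : ℂ) - z‖ ^ 2 := pow_le_pow_left₀ hη.le h6 2
    exact div_le_div_of_nonneg_left (sq_nonneg _) (pow_pos hη 2) h8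
  have n2 : ∀ f : Λ → ℂ, ∑ x, ‖∑ y, G h V z x y * f y‖ ^ 2 ≤ (∑ y, ‖f y‖ ^ 2) / η ^ 2 := by
    intro f
    have h3 := hO Λ h V z hs (by rw [hz]; exact hη) f
    rwa [hz] at h3
  have n3 : ∀ f : Λ → ℂ, ∑ x, ‖∑ y, (GA φ e z - G h V z) x y * f y‖ ^ 2 ≤
      (2 / η) ^ 2 * ∑ x, ‖f x‖ ^ 2 := by
    intro f
    have h3 : ∀ x, ‖∑ y, (GA φ e z - G h V z) x y * f y‖ ^ 2 ≤
        2 * ‖∑ y, GA φ e z x y * f y‖ ^ 2 + 2 * ‖∑ y, G h V z x y * f y‖ ^ 2 := by
      intro x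
      have h4 : ∑ y, (GA φ e z - G h V z) x y * f y =
          ∑ y, GA φ e z x y * f y - ∑ y, G h V z x y * f y := by
        rw [← Finset.sum_sub_distrib]
        refine Finset.sum_congr rfl fun y _ => ?_
        rw [Matrix.sub_apply, sub_mul]
      rw [h4]
      have h5 := norm_sub_le (∑ y, GA φ e z x y * f y) (∑ y, G h V z x y * f y)
      have h6 := norm_nonneg (∑ y, GA φ e z x y * f y - ∑ y, G h V z x y * f y)
      nlinarith [sq_nonneg (‖∑ y, GA φ e z x y * f y‖ - ‖∑ y, G h V z x y * f y‖)]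
    refine (Finset.sum_le_sum fun x _ => h3 x).trans ?_
    rw [Finset.sum_add_distrib, ← Finset.mul_sum, ← Finset.mul_sum]
    have h4 := n1 f
    have h5 := n2 f
    have h6 : (2 / η) ^ 2 * ∑ x, ‖f x‖ ^ 2 = 4 * ((∑ x, ‖f x‖ ^ 2) / η ^ 2) := by
      rw [div_pow]
      ring
    rw [h6]
    linarith
  have h3 := hR Λ (GA φ e z - G h V z) (2 / η) (div_nonneg zero_le_two hη.le) n3
  refine le_trans (le_of_eq ?_) (h3.trans ?_)
  · rfl
  · rw [div_pow]
    have h4 : ((GA φ e z - G h V z).rank : ℝ) ≤ ((A - Hm h V).rank : ℝ) := by exact_mod_cast g6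
    have h5 : (0 : ℝ) ≤ 2 ^ 2 / η ^ 2 := by positivity
    calc ((GA φ e z - G h V z).rank : ℝ) * (2 ^ 2 / η ^ 2)
        ≤ ((A - Hm h V).rank : ℝ) * (2 ^ 2 / η ^ 2) := mul_le_mul_of_nonneg_right h4 h5
      _ = 4 * ((A - Hm h V).rank : ℝ) / η ^ 2 := by ring

end Pool.Agent.Q190.HB2
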